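import Mathlib

/-!
# Value-oracle minimization of submodular functions on modular semilattices

We show that no deterministic value-oracle strategy (not even a non-uniform, computationally
unbounded one) minimizes all submodular functions on products of modular semilattices with a
polynomial number of oracle calls.  The hard inputs are finite, integer valued functions on the
`n`-th power of the four element star (a least element and three pairwise incomparable atoms).
-/

namespace Pool.Agent.Results.MP_88d2b4_lc.OracleLowerBound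

/-! ## Modular semilattices and the fractional join -/

section Defs

variable {L : Type} [SemilatticeInf L] [OrderBot L]

/-- `L` is a modular semilattice: every principal ideal `{x | x ≤ t}` is a lattice (pairs below
`t` have a join), this lattice is modular, and the join of `x, y, z` exists as soon as the three
pairwise joins exist. -/
structure IsModularSemilattice (L : Type) [SemilatticeInf L] [OrderBot L] : Prop where
  ideal_join : ∀ t x y : L, x ≤ t → y ≤ t → ∃ j, IsLUB {x, y} j
  ideal_modular : ∀ t x y z j : L, x ≤ t → y ≤ t → z ≤ x → IsLUB {y, z} j →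
    IsLUB {x ⊓ y, z} (x ⊓ j)
  join_three : ∀ x y z : L, (∃ j, IsLUB {x, y} j) → (∃ j, IsLUB {y, z} j) →
    (∃ j, IsLUB {z, x} j) → ∃ j, IsLUB {x, y, z} j

/-- The rank of `p`: the length of a longest chain from the least element to `p`. -/
noncomputable def rk (p : L) : ℕ := (Order.height p).toNat

/-- `I(p,q)`: the elements `a ∨ b` with `p ∧ q ≤ a ≤ p` and `p ∧ q ≤ b ≤ q`. -/
def fracI (p q : L) : Set L :=
  {u | ∃ a b : L, p ⊓ q ≤ a ∧ a ≤ p ∧ p ⊓ q ≤ b ∧ b ≤ q ∧ IsLUB {a, b} u}

/-- The point `r(u;p,q)` of the plane. -/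
noncomputable def fracPt (p q u : L) : ℝ × ℝ :=
  ((rk (u ⊓ p) : ℝ) - rk (p ⊓ q), (rk (u ⊓ q) : ℝ) - rk (p ⊓ q))

/-- The convex hull `K` of the points `r(u;p,q)`, `u ∈ I(p,q)`. -/
def fracK (p q : L) : Set (ℝ × ℝ) := convexHull ℝ (fracPt p q '' fracI p q)

/-- `E(p,q)`: the `u ∈ I(p,q)` such that `r(u;p,q)` is a (componentwise) maximal extreme point
of `K`. -/
def fracE (p q : L) : Set L :=
  {u | u ∈ fracI p q ∧ Maximal (fun z => z ∈ (fracK p q).extremePoints ℝ) (fracPt p q u)}

/-- `C(u;p,q)`: the nonnegative vectors `c` such that `r(u;p,q)` maximizes `⟨c, ·⟩` over `K`. -/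
def fracC (p q u : L) : Set (ℝ × ℝ) :=
  {c | 0 ≤ c.1 ∧ 0 ≤ c.2 ∧ ∀ z ∈ fracK p q,
    c.1 * z.1 + c.2 * z.2 ≤ c.1 * (fracPt p q u).1 + c.2 * (fracPt p q u).2}

/-- The angles in `[0, π/2]` of the directions that belong to the cone `C`. -/
def angles (C : Set (ℝ × ℝ)) : Set ℝ :=
  {θ | 0 ≤ θ ∧ θ ≤ Real.pi / 2 ∧ (Real.cos θ, Real.sin θ) ∈ C}

/-- `sin θ / (sin θ + cos θ)`. -/
noncomputable def angleVal (θ : ℝ) : ℝ := Real.sin θ / (Real.sin θ + Real.cos θ)

/-- `[C]`: for a cone whose angles form the interval `[α, β]`, this is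
`sin β / (sin β + cos β) - sin α / (sin α + cos α)`. -/
noncomputable def coneWeight (C : Set (ℝ × ℝ)) : ℝ :=
  angleVal (sSup (angles C)) - angleVal (sInf (angles C))

/-- A value `x ∈ ℚ ∪ {+∞}` as an extended real number. -/
noncomputable def toE : WithTop ℚ → EReal
  | none => ⊤
  | some x => ((x : ℝ) : EReal)

open Classical in
/-- `f : L → ℚ ∪ {+∞}` is submodular on the finite modular semilattice `L`:
`f(p) + f(q) ≥ f(p ∧ q) + ∑_{u ∈ E(p,q)} [C(u;p,q)] f(u)` for all `p, q`. -/
def IsSubmodular [Fintype L] (f : L → WithTop ℚ) : Prop :=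
  ∀ p q : L,
    toE (f (p ⊓ q)) + ∑ u ∈ Finset.univ.filter (fun u => u ∈ fracE p q),
      ((coneWeight (fracC p q u) : ℝ) : EReal) * toE (f u) ≤ toE (f p) + toE (f q)

end Defs

/-! ## The oracle model -/

/-- A deterministic query strategy on the set `X`: given the list of the oracle answers received
so far it either asks for the value at a point (`Sum.inl x`) or stops with an output
(`Sum.inr x`). -/
def Strategy (X : Type) : Type := List (WithTop ℚ) → X ⊕ X

/-- `run s f T h`: the output of the strategy `s` on the value oracle `f`, started with the list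
`h` of answers and allowed at most `T` further oracle calls (`none` if it does not stop). -/
def run {X : Type} (s : Strategy X) (f : X → WithTop ℚ) : ℕ → List (WithTop ℚ) → Option X
  | 0, h => match s h with
    | Sum.inl _ => none
    | Sum.inr x => some x
  | T + 1, h => match s h with
    | Sum.inl x => run s f T (h ++ [f x])
    | Sum.inr x => some x

/-- The bit length of a finite value (and `0` for the value `+∞`). -/
def bitLength : WithTop ℚ → ℕ
  | none => 0
  | some x => Nat.size x.num.natAbs + Nat.size x.den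

/-- The maximum bit length of the finite values of `f`. -/
def maxBits {X : Type} [Fintype X] (f : X → WithTop ℚ) : ℕ :=
  Finset.univ.sup fun x => bitLength (f x)

/-- `N = max_i |L_i|`. -/
def maxCard {n : ℕ} (L : Fin n → Type) [∀ i, Fintype (L i)] : ℕ :=
  Finset.univ.sup fun i => Fintype.card (L i)

/-! ## The star with three atoms -/

/-- The star: a least element and three pairwise incomparable atoms. -/
def Star : Type := Option (Fin 3)

instance : DecidableEq Star := inferInstanceAs (DecidableEq (Option (Fin 3)))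
instance : Fintype Star := inferInstanceAs (Fintype (Option (Fin 3)))

/-- the least element -/
def Star.bot : Star := (none : Option (Fin 3))
/-- the three atoms -/
def Star.atom (c : Fin 3) : Star := (some c : Option (Fin 3))

instance : SemilatticeInf Star where
  le x y := x = Star.bot ∨ x = y
  inf x y := if x = y then x else Star.bot
  le_refl := fun a => Or.inr rfl
  le_trans := by
    intro a b c h1 h2
    rcases h1 with h1 | h1
    · exact Or.inl h1
    · subst h1; exact h2
  le_antisymm := by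
    intro a b h1 h2
    rcases h1 with h1 | h1
    · rcases h2 with h2 | h2
      · rw [h1, h2]
      · exact h2.symm
    · exact h1
  inf_le_left := by
    intro a b
    by_cases h : a = b
    · simp [h]
    · simp [h]
  inf_le_right := by
    intro a b
    by_cases h : a = b
    · simp [h]
    · simp [h]
  le_inf := by
    intro a b c h1 h2
    rcases h1 with h1 | h1
    · exact Or.inl h1
    · subst h1
      rcases h2 with h2 | h2
      · exact Or.inl h2
      · subst h2; simp

instance : DecidableLE Star := fun x y => inferInstanceAs (Decidable (x = Star.bot ∨ x = y))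

instance : OrderBot Star where
  bot := Star.bot
  bot_le := fun _ => Or.inl rfl

lemma isLUB_pair_iff (x y j : Star) : IsLUB {x, y} j ↔
    (x ≤ j ∧ y ≤ j ∧ ∀ w : Star, x ≤ w → y ≤ w → j ≤ w) := by
  constructor
  · intro h
    refine ⟨h.1 (by simp), h.1 (by simp), fun w h1 h2 => h.2 ?_⟩
    intro z hz
    rcases hz with rfl | hz
    · exact h1
    · rw [Set.mem_singleton_iff] at hz; subst hz; exact h2
  · rintro ⟨h1, h2, h3⟩
    refine ⟨?_, ?_⟩
    · intro z hz
      rcases hz with rfl | hz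
      · exact h1
      · rw [Set.mem_singleton_iff] at hz; subst hz; exact h2
    · intro w hw
      exact h3 w (hw (by simp)) (hw (by simp))

lemma isLUB_triple_iff (x y z j : Star) : IsLUB {x, y, z} j ↔
    (x ≤ j ∧ y ≤ j ∧ z ≤ j ∧ ∀ w : Star, x ≤ w → y ≤ w → z ≤ w → j ≤ w) := by
  constructor
  · intro h
    refine ⟨h.1 (by simp), h.1 (by simp), h.1 (by simp), fun w h1 h2 h3 => h.2 ?_⟩
    intro t ht
    rcases ht with rfl | rfl | ht
    · exact h1
    · exact h2
    · rw [Set.mem_singleton_iff] at ht; subst ht; exact h3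
  · rintro ⟨h1, h2, h3, h4⟩
    refine ⟨?_, ?_⟩
    · intro t ht
      rcases ht with rfl | rfl | ht
      · exact h1
      · exact h2
      · rw [Set.mem_singleton_iff] at ht; subst ht; exact h3
    · intro w hw
      exact h4 w (hw (by simp)) (hw (by simp)) (hw (by simp))

lemma star_modular : IsModularSemilattice Star where
  ideal_join := by
    simp only [isLUB_pair_iff]
    decide +kernel
  ideal_modular := by
    simp only [isLUB_pair_iff]
    decide +kernel
  join_three := by
    simp only [isLUB_pair_iff, isLUB_triple_iff]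
    decide +kernel

/-! ### rank on powers of the star -/

/-- indicator of being nonzero -/
def w (x : Star) : ℕ := if x = Star.bot then 0 else 1

/-- number of nonzero coordinates -/
def W {n : ℕ} (p : Fin n → Star) : ℕ := ∑ i, w (p i)

lemma w_mono : ∀ x y : Star, x ≤ y → w x ≤ w y := by decide +kernel
lemma w_eq_of_le : ∀ x y : Star, x ≤ y → w x = w y → x = y := by decide +kernel

lemma W_strictMono {n : ℕ} : StrictMono (W (n := n)) := by
  intro p q hpq
  rw [Pi.lt_def] at hpq
  obtain ⟨hle, i, hi⟩ := hpq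
  refine Finset.sum_lt_sum (fun j _ => w_mono _ _ (hle j)) ⟨i, Finset.mem_univ _, ?_⟩
  refine lt_of_le_of_ne (w_mono _ _ hi.le) ?_
  intro h
  exact hi.ne (w_eq_of_le _ _ hi.le h)

lemma le_height {n : ℕ} : ∀ (m : ℕ) (p : Fin n → Star), W p = m → (m : ℕ∞) ≤ Order.height p := by
  intro m
  induction m with
  | zero => intro p _; simp
  | succ m ih =>
    intro p hp
    have h1 : ∃ i, p i ≠ Star.bot := by
      by_contra hcon
      push Not at hcon
      have : W p = 0 := by
        unfold W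
        apply Finset.sum_eq_zero
        intro i _
        simp [w, hcon i]
      omega
    obtain ⟨i, hi⟩ := h1
    let p' : Fin n → Star := Function.update p i Star.bot
    have hle : p' ≤ p := by
      intro j
      by_cases hj : j = i
      · subst hj
        simp only [p', Function.update_self]
        exact Or.inl rfl
      · simp [p', Function.update_of_ne hj]
    have hlt : p' < p := by
      refine lt_of_le_of_ne hle ?_
      intro h
      apply hi
      rw [← h]
      simp [p']
    have hW : W p' + 1 = W p := by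
      unfold W
      rw [← Finset.add_sum_erase _ _ (Finset.mem_univ i), ← Finset.add_sum_erase _ (fun j => w (p j)) (Finset.mem_univ i)]
      have e1 : w (p' i) = 0 := by simp [p', w]
      have e2 : w (p i) = 1 := by simp [w, hi]
      have e3 : ∑ j ∈ Finset.univ.erase i, w (p' j) = ∑ j ∈ Finset.univ.erase i, w (p j) := by
        apply Finset.sum_congr rfl
        intro j hj
        have : j ≠ i := Finset.ne_of_mem_erase hj
        simp [p', Function.update_of_ne this]
      rw [e1, e2, e3]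
      omega
    have := ih p' (by omega)
    calc ((m + 1 : ℕ) : ℕ∞) = (m : ℕ∞) + 1 := by push_cast; rfl
      _ ≤ Order.height p' + 1 := by gcongr
      _ ≤ Order.height p := Order.height_add_one_le hlt

lemma rk_eq {n : ℕ} (p : Fin n → Star) : rk p = W p := by
  have h1 : Order.height p ≤ (W p : ℕ∞) := by
    have := Order.height_le_height_apply_of_strictMono (W (n := n)) W_strictMono p
    rwa [Order.height_nat] at this
  have h2 := le_height (W p) p rfl
  have h3 : Order.height p = (W p : ℕ∞) := le_antisymm h1 h2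
  unfold rk
  rw [h3]
  simp

/-! ### coordinatewise analysis of the fractional join -/

def cA (p q : Star) : ℕ := if p ≠ Star.bot ∧ q = Star.bot then 1 else 0
def cB (p q : Star) : ℕ := if p = Star.bot ∧ q ≠ Star.bot then 1 else 0
def cC (p q : Star) : ℕ := if p ≠ Star.bot ∧ q ≠ Star.bot ∧ p ≠ q then 1 else 0

/-- `p` where it is nonzero, otherwise `q` -/
def lj (p q : Star) : Star := if p = Star.bot then q else p
/-- `q` where it is nonzero, otherwise `p` -/
def rj (p q : Star) : Star := if q = Star.bot then p else q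

/-- coordinate condition for membership in `I(p,q)` -/
def Cnd (p q a b u : Star) : Prop :=
  p ⊓ q ≤ a ∧ a ≤ p ∧ p ⊓ q ≤ b ∧ b ≤ q ∧ (a ≤ u ∧ b ≤ u ∧ ∀ v : Star, a ≤ v → b ≤ v → u ≤ v)

instance (p q a b u : Star) : Decidable (Cnd p q a b u) := by unfold Cnd; infer_instance

lemma fact1 : ∀ p q a b u : Star, Cnd p q a b u → w (p ⊓ q) ≤ w (u ⊓ p) := by decide +kernel
lemma fact2 : ∀ p q a b u : Star, Cnd p q a b u → w (p ⊓ q) ≤ w (u ⊓ q) := by decide +kernel
lemma fact3 : ∀ p q a b u : Star, Cnd p q a b u → w (u ⊓ p) ≤ w (p ⊓ q) + cA p q + cC p q := by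
  decide +kernel
lemma fact4 : ∀ p q a b u : Star, Cnd p q a b u → w (u ⊓ q) ≤ w (p ⊓ q) + cB p q + cC p q := by
  decide +kernel
lemma fact5 : ∀ p q a b u : Star, Cnd p q a b u →
    w (u ⊓ p) + w (u ⊓ q) ≤ 2 * w (p ⊓ q) + cA p q + cB p q + cC p q := by
  decide +kernel
lemma fact6 : ∀ p q a b u : Star, Cnd p q a b u →
    w (u ⊓ p) = w (p ⊓ q) + cA p q + cC p q → w (u ⊓ q) = w (p ⊓ q) + cB p q → u = lj p q := by
  decide +kernel
lemma fact7 : ∀ p q a b u : Star, Cnd p q a b u →
    w (u ⊓ p) = w (p ⊓ q) + cA p q → w (u ⊓ q) = w (p ⊓ q) + cB p q + cC p q → u = rj p q := by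
  decide +kernel
lemma fact8 : ∀ p q : Star, Cnd p q p (if p = Star.bot then q else p ⊓ q) (lj p q) := by
  decide +kernel
lemma fact9 : ∀ p q : Star, Cnd p q (if q = Star.bot then p else p ⊓ q) q (rj p q) := by
  decide +kernel
lemma fact10 : ∀ p q : Star, Cnd p q (p ⊓ q) (p ⊓ q) (p ⊓ q) := by
  decide +kernel
lemma fact11 : ∀ p q : Star, w (lj p q ⊓ p) = w (p ⊓ q) + cA p q + cC p q ∧
    w (lj p q ⊓ q) = w (p ⊓ q) + cB p q := by
  decide +kernel
lemma fact12 : ∀ p q : Star, w (rj p q ⊓ p) = w (p ⊓ q) + cA p q ∧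
    w (rj p q ⊓ q) = w (p ⊓ q) + cB p q + cC p q := by
  decide +kernel
lemma fact13 : ∀ p q : Star, w ((p ⊓ q) ⊓ p) = w (p ⊓ q) ∧ w ((p ⊓ q) ⊓ q) = w (p ⊓ q) := by
  decide +kernel
lemma fact14 : ∀ p q : Star, cC p q = 0 → lj p q = rj p q := by
  decide +kernel
lemma fact15 : ∀ p q : Star, cC p q ≠ 0 → lj p q ≠ rj p q := by
  decide +kernel

section Frac

variable {n : ℕ} (p q : Fin n → Star)

/-- coordinatewise left join -/
def LJ : Fin n → Star := fun i => lj (p i) (q i)
/-- coordinatewise right join -/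
def RJ : Fin n → Star := fun i => rj (p i) (q i)
def nA : ℕ := ∑ i, cA (p i) (q i)
def nB : ℕ := ∑ i, cB (p i) (q i)
def nC : ℕ := ∑ i, cC (p i) (q i)

lemma mem_I_iff (u : Fin n → Star) : u ∈ fracI p q ↔
    ∃ a b : Fin n → Star, ∀ i, Cnd (p i) (q i) (a i) (b i) (u i) := by
  unfold fracI Cnd
  constructor
  · rintro ⟨a, b, h1, h2, h3, h4, h5⟩
    refine ⟨a, b, fun i => ⟨h1 i, h2 i, h3 i, h4 i, ?_⟩⟩
    rw [← isLUB_pair_iff]
    have := isLUB_pi.1 h5 i
    simpa [Set.image_pair] using this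
  · rintro ⟨a, b, h⟩
    refine ⟨a, b, fun i => (h i).1, fun i => (h i).2.1, fun i => (h i).2.2.1,
      fun i => (h i).2.2.2.1, ?_⟩
    rw [isLUB_pi]
    intro i
    have := (isLUB_pair_iff _ _ _).2 (h i).2.2.2.2
    simpa [Set.image_pair] using this

lemma W_inf_apply (u v : Fin n → Star) : W (u ⊓ v) = ∑ i, w (u i ⊓ v i) := rfl

variable {p q}

lemma I1 {u : Fin n → Star} (hu : u ∈ fracI p q) : W (p ⊓ q) ≤ W (u ⊓ p) := by
  obtain ⟨a, b, h⟩ := (mem_I_iff p q u).1 hu
  exact Finset.sum_le_sum fun i _ => fact1 _ _ _ _ _ (h i)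

lemma I2 {u : Fin n → Star} (hu : u ∈ fracI p q) : W (p ⊓ q) ≤ W (u ⊓ q) := by
  obtain ⟨a, b, h⟩ := (mem_I_iff p q u).1 hu
  exact Finset.sum_le_sum fun i _ => fact2 _ _ _ _ _ (h i)

lemma I3 {u : Fin n → Star} (hu : u ∈ fracI p q) : W (u ⊓ p) ≤ W (p ⊓ q) + nA p q + nC p q := by
  obtain ⟨a, b, h⟩ := (mem_I_iff p q u).1 hu
  simp only [W_inf_apply, nA, nC, ← Finset.sum_add_distrib]
  exact Finset.sum_le_sum fun i _ => fact3 _ _ _ _ _ (h i)

lemma I4 {u : Fin n → Star} (hu : u ∈ fracI p q) : W (u ⊓ q) ≤ W (p ⊓ q) + nB p q + nC p q := by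
  obtain ⟨a, b, h⟩ := (mem_I_iff p q u).1 hu
  simp only [W_inf_apply, nB, nC, ← Finset.sum_add_distrib]
  exact Finset.sum_le_sum fun i _ => fact4 _ _ _ _ _ (h i)

lemma I5 {u : Fin n → Star} (hu : u ∈ fracI p q) :
    W (u ⊓ p) + W (u ⊓ q) ≤ 2 * W (p ⊓ q) + nA p q + nB p q + nC p q := by
  obtain ⟨a, b, h⟩ := (mem_I_iff p q u).1 hu
  simp only [W_inf_apply, nA, nB, nC, Finset.mul_sum, ← Finset.sum_add_distrib]
  exact Finset.sum_le_sum fun i _ => fact5 _ _ _ _ _ (h i)

lemma I6 {u : Fin n → Star} (hu : u ∈ fracI p q) (h1 : W (u ⊓ p) = W (p ⊓ q) + nA p q + nC p q)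
    (h2 : W (u ⊓ q) = W (p ⊓ q) + nB p q) : u = LJ p q := by
  obtain ⟨a, b, h⟩ := (mem_I_iff p q u).1 hu
  simp only [W_inf_apply, nA, nB, nC, ← Finset.sum_add_distrib] at h1 h2
  have e1 := (Finset.sum_eq_sum_iff_of_le (fun i _ => fact3 _ _ _ _ _ (h i))).1 h1
  have hle : ∀ i ∈ Finset.univ, w (u i ⊓ q i) ≤ w (p i ⊓ q i) + cB (p i) (q i) := by
    intro i hi
    have a1 := fact5 _ _ _ _ _ (h i)
    have a2 := e1 i hi
    omega
  have e2 := (Finset.sum_eq_sum_iff_of_le hle).1 h2
  funext i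
  exact fact6 _ _ _ _ _ (h i) (e1 i (Finset.mem_univ _)) (e2 i (Finset.mem_univ _))

lemma I7 {u : Fin n → Star} (hu : u ∈ fracI p q) (h1 : W (u ⊓ p) = W (p ⊓ q) + nA p q)
    (h2 : W (u ⊓ q) = W (p ⊓ q) + nB p q + nC p q) : u = RJ p q := by
  obtain ⟨a, b, h⟩ := (mem_I_iff p q u).1 hu
  simp only [W_inf_apply, nA, nB, nC, ← Finset.sum_add_distrib] at h1 h2
  have e2 := (Finset.sum_eq_sum_iff_of_le (fun i _ => fact4 _ _ _ _ _ (h i))).1 h2
  have hle : ∀ i ∈ Finset.univ, w (u i ⊓ p i) ≤ w (p i ⊓ q i) + cA (p i) (q i) := by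
    intro i hi
    have a1 := fact5 _ _ _ _ _ (h i)
    have a2 := e2 i hi
    omega
  have e1 := (Finset.sum_eq_sum_iff_of_le hle).1 h1
  funext i
  exact fact7 _ _ _ _ _ (h i) (e1 i (Finset.mem_univ _)) (e2 i (Finset.mem_univ _))

lemma LJ_mem : LJ p q ∈ fracI p q :=
  (mem_I_iff p q _).2 ⟨p, _, fun i => fact8 (p i) (q i)⟩

lemma RJ_mem : RJ p q ∈ fracI p q :=
  (mem_I_iff p q _).2 ⟨_, q, fun i => fact9 (p i) (q i)⟩

lemma inf_mem : p ⊓ q ∈ fracI p q :=
  (mem_I_iff p q _).2 ⟨p ⊓ q, p ⊓ q, fun i => fact10 (p i) (q i)⟩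

lemma LJ_pt : fracPt p q (LJ p q) = ((nA p q : ℝ) + nC p q, (nB p q : ℝ)) := by
  have h1 : W (LJ p q ⊓ p) = W (p ⊓ q) + nA p q + nC p q := by
    simp only [W_inf_apply, nA, nC, ← Finset.sum_add_distrib]
    exact Finset.sum_congr rfl fun i _ => (fact11 (p i) (q i)).1
  have h2 : W (LJ p q ⊓ q) = W (p ⊓ q) + nB p q := by
    simp only [W_inf_apply, nB, ← Finset.sum_add_distrib]
    exact Finset.sum_congr rfl fun i _ => (fact11 (p i) (q i)).2
  unfold fracPt
  rw [rk_eq, rk_eq, rk_eq, h1, h2]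
  ext <;> push_cast <;> ring

lemma RJ_pt : fracPt p q (RJ p q) = ((nA p q : ℝ), (nB p q : ℝ) + nC p q) := by
  have h1 : W (RJ p q ⊓ p) = W (p ⊓ q) + nA p q := by
    simp only [W_inf_apply, nA, ← Finset.sum_add_distrib]
    exact Finset.sum_congr rfl fun i _ => (fact12 (p i) (q i)).1
  have h2 : W (RJ p q ⊓ q) = W (p ⊓ q) + nB p q + nC p q := by
    simp only [W_inf_apply, nB, nC, ← Finset.sum_add_distrib]
    exact Finset.sum_congr rfl fun i _ => (fact12 (p i) (q i)).2
  unfold fracPt
  rw [rk_eq, rk_eq, rk_eq, h1, h2]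
  ext <;> push_cast <;> ring

lemma inf_pt : fracPt p q (p ⊓ q) = (0, 0) := by
  have h1 : W ((p ⊓ q) ⊓ p) = W (p ⊓ q) :=
    Finset.sum_congr rfl fun i _ => (fact13 (p i) (q i)).1
  have h2 : W ((p ⊓ q) ⊓ q) = W (p ⊓ q) :=
    Finset.sum_congr rfl fun i _ => (fact13 (p i) (q i)).2
  unfold fracPt
  rw [rk_eq, rk_eq, rk_eq, h1, h2]
  ext <;> simp

variable (p q)

/-- the polygon containing `K` -/
def Pg : Set (ℝ × ℝ) :=
  {z | 0 ≤ z.1 ∧ 0 ≤ z.2 ∧ z.1 ≤ (nA p q : ℝ) + nC p q ∧ z.2 ≤ (nB p q : ℝ) + nC p q ∧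
    z.1 + z.2 ≤ (nA p q : ℝ) + nB p q + nC p q}

lemma Pg_convex : Convex ℝ (Pg p q) := by
  intro x hx y hy a b ha hb hab
  obtain ⟨x1, x2, x3, x4, x5⟩ := hx
  obtain ⟨y1, y2, y3, y4, y5⟩ := hy
  have hb' : b = 1 - a := by linarith
  subst hb'
  refine ⟨?_, ?_, ?_, ?_, ?_⟩ <;> simp only [Prod.fst_add, Prod.snd_add, Prod.smul_fst,
    Prod.smul_snd, smul_eq_mul] <;> nlinarith

lemma K_subset : fracK p q ⊆ Pg p q := by
  apply convexHull_min _ (Pg_convex p q)
  rintro _ ⟨u, hu, rfl⟩
  have h1 := I1 hu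
  have h2 := I2 hu
  have h3 := I3 hu
  have h4 := I4 hu
  have h5 := I5 hu
  have h1' : (W (p ⊓ q) : ℝ) ≤ W (u ⊓ p) := by exact_mod_cast h1
  have h2' : (W (p ⊓ q) : ℝ) ≤ W (u ⊓ q) := by exact_mod_cast h2
  have h3' : (W (u ⊓ p) : ℝ) ≤ W (p ⊓ q) + nA p q + nC p q := by exact_mod_cast h3
  have h4' : (W (u ⊓ q) : ℝ) ≤ W (p ⊓ q) + nB p q + nC p q := by exact_mod_cast h4
  have h5' : (W (u ⊓ p) : ℝ) + W (u ⊓ q) ≤ 2 * W (p ⊓ q) + nA p q + nB p q + nC p q := by
    exact_mod_cast h5
  unfold fracPt Pg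
  rw [rk_eq, rk_eq, rk_eq]
  refine ⟨?_, ?_, ?_, ?_, ?_⟩ <;> simp only <;> linarith

lemma v1_mem : (((nA p q : ℝ) + nC p q, (nB p q : ℝ)) : ℝ × ℝ) ∈ fracK p q :=
  subset_convexHull ℝ _ ⟨LJ p q, LJ_mem, LJ_pt⟩

lemma v2_mem : (((nA p q : ℝ), (nB p q : ℝ) + nC p q) : ℝ × ℝ) ∈ fracK p q :=
  subset_convexHull ℝ _ ⟨RJ p q, RJ_mem, RJ_pt⟩

lemma zero_mem : ((0, 0) : ℝ × ℝ) ∈ fracK p q :=
  subset_convexHull ℝ _ ⟨p ⊓ q, inf_mem, inf_pt⟩

end Frac

section Frac2

variable {n : ℕ} (p q : Fin n → Star)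

lemma v1_extreme : (((nA p q : ℝ) + nC p q, (nB p q : ℝ)) : ℝ × ℝ) ∈
    (fracK p q).extremePoints ℝ := by
  rw [mem_extremePoints_iff_left]
  refine ⟨v1_mem p q, ?_⟩
  intro x hx y hy hseg
  have hx' := K_subset p q hx
  have hy' := K_subset p q hy
  obtain ⟨x1, x2, x3, x4, x5⟩ := hx'
  obtain ⟨y1, y2, y3, y4, y5⟩ := hy'
  obtain ⟨a, b, ha, hb, hab, hz⟩ := hseg
  have hb' : b = 1 - a := by linarith
  have e1 : a * x.1 + b * y.1 = (nA p q : ℝ) + nC p q := by
    have := congrArg Prod.fst hz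
    simpa using this
  have e2 : a * x.2 + b * y.2 = (nB p q : ℝ) := by
    have := congrArg Prod.snd hz
    simpa using this
  have f1 : x.1 = (nA p q : ℝ) + nC p q := by
    by_contra hne
    have : x.1 < (nA p q : ℝ) + nC p q := lt_of_le_of_ne x3 hne
    nlinarith
  have f2 : x.1 + x.2 = (nA p q : ℝ) + nB p q + nC p q := by
    by_contra hne
    have : x.1 + x.2 < (nA p q : ℝ) + nB p q + nC p q := lt_of_le_of_ne x5 hne
    nlinarith
  ext
  · exact f1
  · simp only; linarith

lemma v2_extreme : (((nA p q : ℝ), (nB p q : ℝ) + nC p q) : ℝ × ℝ) ∈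
    (fracK p q).extremePoints ℝ := by
  rw [mem_extremePoints_iff_left]
  refine ⟨v2_mem p q, ?_⟩
  intro x hx y hy hseg
  have hx' := K_subset p q hx
  have hy' := K_subset p q hy
  obtain ⟨x1, x2, x3, x4, x5⟩ := hx'
  obtain ⟨y1, y2, y3, y4, y5⟩ := hy'
  obtain ⟨a, b, ha, hb, hab, hz⟩ := hseg
  have hb' : b = 1 - a := by linarith
  have e1 : a * x.1 + b * y.1 = (nA p q : ℝ) := by
    have := congrArg Prod.fst hz
    simpa using this
  have e2 : a * x.2 + b * y.2 = (nB p q : ℝ) + nC p q := by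
    have := congrArg Prod.snd hz
    simpa using this
  have f1 : x.2 = (nB p q : ℝ) + nC p q := by
    by_contra hne
    have : x.2 < (nB p q : ℝ) + nC p q := lt_of_le_of_ne x4 hne
    nlinarith
  have f2 : x.1 + x.2 = (nA p q : ℝ) + nB p q + nC p q := by
    by_contra hne
    have : x.1 + x.2 < (nA p q : ℝ) + nB p q + nC p q := lt_of_le_of_ne x5 hne
    nlinarith
  ext
  · simp only; linarith
  · exact f1

/-- every maximal extreme point of `K` is one of the two corners -/
lemma maximal_extreme {z : ℝ × ℝ} (hz : Maximal (fun z => z ∈ (fracK p q).extremePoints ℝ) z) :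
    z = ((nA p q : ℝ) + nC p q, (nB p q : ℝ)) ∨ z = ((nA p q : ℝ), (nB p q : ℝ) + nC p q) := by
  have hzE := hz.prop
  have hzK : z ∈ fracK p q := hzE.1
  obtain ⟨z1, z2, z3, z4, z5⟩ := K_subset p q hzK
  rw [mem_extremePoints_iff_left] at hzE
  have hext := hzE.2
  -- dominated by the first corner
  by_cases hd1 : z.2 ≤ (nB p q : ℝ)
  · left
    exact hz.eq_of_le (v1_extreme p q) ⟨z3, hd1⟩
  by_cases hd2 : z.1 ≤ (nA p q : ℝ)
  · right
    exact hz.eq_of_le (v2_extreme p q) ⟨hd2, z4⟩
  push Not at hd1 hd2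
  have hA0 : (0 : ℝ) ≤ nA p q := Nat.cast_nonneg _
  have hB0 : (0 : ℝ) ≤ nB p q := Nat.cast_nonneg _
  have hC0 : (0 : ℝ) < nC p q := by linarith
  -- the point `t • z` on the segment between the two corners
  have hs : 0 < z.1 + z.2 := by linarith
  have hconv : Convex ℝ (fracK p q) := convex_convexHull ℝ _
  by_cases hlt : z.1 + z.2 < (nA p q : ℝ) + nB p q + nC p q
  · exfalso
    set t : ℝ := ((nA p q : ℝ) + nB p q + nC p q) / (z.1 + z.2) with ht
    have ht1 : 1 < t := by rw [ht, lt_div_iff₀ hs]; linarith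
    have hts : t * (z.1 + z.2) = (nA p q : ℝ) + nB p q + nC p q := by
      rw [ht]; field_simp
    have hx1 : (nA p q : ℝ) < t * z.1 := by nlinarith
    have hy1 : (nB p q : ℝ) < t * z.2 := by nlinarith
    have hmem : (t * z.1, t * z.2) ∈ fracK p q := by
      -- convex combination of the corners
      set a : ℝ := (t * z.1 - nA p q) / nC p q with ha
      have ha0 : 0 ≤ a := div_nonneg (by linarith) hC0.le
      have ha1 : a ≤ 1 := by rw [ha, div_le_one hC0]; nlinarith
      have haC : a * nC p q = t * z.1 - nA p q := by rw [ha]; field_simp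
      have := hconv (v1_mem p q) (v2_mem p q) ha0 (by linarith : 0 ≤ 1 - a) (by ring)
      have heq : a • (((nA p q : ℝ) + nC p q, (nB p q : ℝ)) : ℝ × ℝ) +
          (1 - a) • (((nA p q : ℝ), (nB p q : ℝ) + nC p q) : ℝ × ℝ) = (t * z.1, t * z.2) := by
        ext
        · simp only [Prod.smul_mk, smul_eq_mul, Prod.mk_add_mk]
          linear_combination haC
        · simp only [Prod.smul_mk, smul_eq_mul, Prod.mk_add_mk]
          linear_combination (-1 : ℝ) * haC + (-1 : ℝ) * hts
      rwa [heq] at this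
    have hseg : z ∈ openSegment ℝ ((0, 0) : ℝ × ℝ) (t * z.1, t * z.2) := by
      have ht0 : 0 < t := by linarith
      refine ⟨1 - 1 / t, 1 / t, ?_, by positivity, by ring, ?_⟩
      · have : 1 / t < 1 := by rw [div_lt_one ht0]; exact ht1
        linarith
      · ext
        · simp only [Prod.smul_mk, smul_eq_mul, Prod.mk_add_mk]
          field_simp
          ring
        · simp only [Prod.smul_mk, smul_eq_mul, Prod.mk_add_mk]
          field_simp
          ring
    have := hext _ (zero_mem p q) _ hmem hseg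
    have h0 : z.1 = 0 := by rw [← this]
    linarith
  · have hsum : z.1 + z.2 = (nA p q : ℝ) + nB p q + nC p q := by linarith
    set a : ℝ := (z.1 - nA p q) / nC p q with ha
    have ha0 : 0 < a := div_pos (by linarith) hC0
    have ha1 : a < 1 := by rw [ha, div_lt_one hC0]; linarith
    have haC : a * nC p q = z.1 - nA p q := by rw [ha]; field_simp
    have hseg : z ∈ openSegment ℝ (((nA p q : ℝ) + nC p q, (nB p q : ℝ)) : ℝ × ℝ)
        (((nA p q : ℝ), (nB p q : ℝ) + nC p q) : ℝ × ℝ) := by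
      refine ⟨a, 1 - a, ha0, by linarith, by ring, ?_⟩
      ext
      · simp only [Prod.smul_mk, smul_eq_mul, Prod.mk_add_mk]
        linear_combination haC
      · simp only [Prod.smul_mk, smul_eq_mul, Prod.mk_add_mk]
        linear_combination (-1 : ℝ) * haC + (-1 : ℝ) * hsum
    left
    exact (hext _ (v1_mem p q) _ (v2_mem p q) hseg).symm

lemma LJ_mem_E : LJ p q ∈ fracE p q := by
  refine ⟨LJ_mem, ?_⟩
  rw [LJ_pt]
  refine ⟨v1_extreme p q, ?_⟩
  intro z hz hle
  obtain ⟨z1, z2, z3, z4, z5⟩ := K_subset p q hz.1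
  have h1 := hle.1
  have h2 := hle.2
  simp only at h1 h2
  exact ⟨by simp only; linarith, by simp only; linarith⟩

lemma RJ_mem_E : RJ p q ∈ fracE p q := by
  refine ⟨RJ_mem, ?_⟩
  rw [RJ_pt]
  refine ⟨v2_extreme p q, ?_⟩
  intro z hz hle
  obtain ⟨z1, z2, z3, z4, z5⟩ := K_subset p q hz.1
  have h1 := hle.1
  have h2 := hle.2
  simp only at h1 h2
  exact ⟨by simp only; linarith, by simp only; linarith⟩

lemma mem_E_iff (u : Fin n → Star) : u ∈ fracE p q ↔ u = LJ p q ∨ u = RJ p q := by
  constructor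
  · rintro ⟨hI, hmax⟩
    rcases maximal_extreme p q hmax with h | h
    · left
      have h1 := congrArg Prod.fst h
      have h2 := congrArg Prod.snd h
      simp only [fracPt, rk_eq] at h1 h2
      apply I6 hI
      · have : (W (u ⊓ p) : ℝ) = W (p ⊓ q) + nA p q + nC p q := by linarith
        exact_mod_cast this
      · have : (W (u ⊓ q) : ℝ) = W (p ⊓ q) + nB p q := by linarith
        exact_mod_cast this
    · right
      have h1 := congrArg Prod.fst h
      have h2 := congrArg Prod.snd h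
      simp only [fracPt, rk_eq] at h1 h2
      apply I7 hI
      · have : (W (u ⊓ p) : ℝ) = W (p ⊓ q) + nA p q := by linarith
        exact_mod_cast this
      · have : (W (u ⊓ q) : ℝ) = W (p ⊓ q) + nB p q + nC p q := by linarith
        exact_mod_cast this
  · rintro (h | h)
    · rw [h]; exact LJ_mem_E p q
    · rw [h]; exact RJ_mem_E p q

/-! ### the weights -/

lemma angles_LJ (hC : 0 < nC p q) : angles (fracC p q (LJ p q)) = Set.Icc 0 (Real.pi / 4) := by
  have hC' : (0 : ℝ) < nC p q := by exact_mod_cast hC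
  ext θ
  simp only [angles, fracC, Set.mem_ofPred_eq, Set.mem_Icc, LJ_pt]
  have hpi := Real.pi_pos
  constructor
  · rintro ⟨h0, h1, hc, hs, hK⟩
    refine ⟨h0, ?_⟩
    have h2 := hK _ (v2_mem p q)
    simp only at h2
    have h3 : Real.sin θ ≤ Real.cos θ := by nlinarith
    rw [← Real.cos_pi_div_two_sub] at h3
    by_contra hcon
    push Not at hcon
    have : Real.cos θ < Real.cos (Real.pi / 2 - θ) :=
      Real.strictAntiOn_cos ⟨by linarith, by linarith⟩ ⟨by linarith, by linarith⟩ (by linarith)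
    linarith
  · rintro ⟨h0, h1⟩
    have hs : 0 ≤ Real.sin θ := Real.sin_nonneg_of_nonneg_of_le_pi h0 (by linarith)
    have h3 : Real.sin θ ≤ Real.cos θ := by
      rw [← Real.cos_pi_div_two_sub]
      exact Real.strictAntiOn_cos.antitoneOn ⟨by linarith, by linarith⟩
        ⟨by linarith, by linarith⟩ (by linarith)
    refine ⟨h0, by linarith, by linarith, hs, ?_⟩
    intro z hz
    obtain ⟨z1, z2, z3, z4, z5⟩ := K_subset p q hz
    nlinarith

lemma angles_RJ (hC : 0 < nC p q) :
    angles (fracC p q (RJ p q)) = Set.Icc (Real.pi / 4) (Real.pi / 2) := by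
  have hC' : (0 : ℝ) < nC p q := by exact_mod_cast hC
  ext θ
  simp only [angles, fracC, Set.mem_ofPred_eq, Set.mem_Icc, RJ_pt]
  have hpi := Real.pi_pos
  constructor
  · rintro ⟨h0, h1, hc, hs, hK⟩
    refine ⟨?_, h1⟩
    have h2 := hK _ (v1_mem p q)
    simp only at h2
    have h3 : Real.cos θ ≤ Real.sin θ := by nlinarith
    rw [← Real.cos_pi_div_two_sub] at h3
    by_contra hcon
    push Not at hcon
    have : Real.cos (Real.pi / 2 - θ) < Real.cos θ :=
      Real.strictAntiOn_cos ⟨by linarith, by linarith⟩ ⟨by linarith, by linarith⟩ (by linarith)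
    linarith
  · rintro ⟨h0, h1⟩
    have hc : 0 ≤ Real.cos θ := Real.cos_nonneg_of_mem_Icc ⟨by linarith, h1⟩
    have h3 : Real.cos θ ≤ Real.sin θ := by
      rw [← Real.cos_pi_div_two_sub]
      exact Real.strictAntiOn_cos.antitoneOn ⟨by linarith, by linarith⟩
        ⟨by linarith, by linarith⟩ (by linarith)
    refine ⟨by linarith, h1, hc, by linarith, ?_⟩
    intro z hz
    obtain ⟨z1, z2, z3, z4, z5⟩ := K_subset p q hz
    nlinarith

lemma angles_zero (hC : nC p q = 0) :
    angles (fracC p q (LJ p q)) = Set.Icc 0 (Real.pi / 2) := by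
  ext θ
  simp only [angles, fracC, Set.mem_ofPred_eq, Set.mem_Icc, LJ_pt]
  have hpi := Real.pi_pos
  constructor
  · rintro ⟨h0, h1, hc, hs, hK⟩
    exact ⟨h0, h1⟩
  · rintro ⟨h0, h1⟩
    have hs : 0 ≤ Real.sin θ := Real.sin_nonneg_of_nonneg_of_le_pi h0 (by linarith)
    have hc : 0 ≤ Real.cos θ := Real.cos_nonneg_of_mem_Icc ⟨by linarith, h1⟩
    refine ⟨h0, h1, hc, hs, ?_⟩
    intro z hz
    obtain ⟨z1, z2, z3, z4, z5⟩ := K_subset p q hz
    rw [hC] at z3 z4 z5 ⊢
    simp only [Nat.cast_zero, add_zero] at z3 z4 z5 ⊢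
    nlinarith

lemma angleVal_zero : angleVal 0 = 0 := by simp [angleVal]
lemma angleVal_pi_four : angleVal (Real.pi / 4) = 1 / 2 := by
  unfold angleVal
  rw [Real.sin_pi_div_four, Real.cos_pi_div_four]
  have : (0 : ℝ) < Real.sqrt 2 := by positivity
  field_simp
  norm_num
lemma angleVal_pi_two : angleVal (Real.pi / 2) = 1 := by simp [angleVal]

lemma weight_LJ (hC : 0 < nC p q) : coneWeight (fracC p q (LJ p q)) = 1 / 2 := by
  have hpi := Real.pi_pos
  unfold coneWeight
  rw [angles_LJ p q hC, csSup_Icc (by linarith), csInf_Icc (by linarith), angleVal_zero,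
    angleVal_pi_four]
  norm_num

lemma weight_RJ (hC : 0 < nC p q) : coneWeight (fracC p q (RJ p q)) = 1 / 2 := by
  have hpi := Real.pi_pos
  unfold coneWeight
  rw [angles_RJ p q hC, csSup_Icc (by linarith), csInf_Icc (by linarith), angleVal_pi_two,
    angleVal_pi_four]
  norm_num

lemma weight_zero (hC : nC p q = 0) : coneWeight (fracC p q (LJ p q)) = 1 := by
  have hpi := Real.pi_pos
  unfold coneWeight
  rw [angles_zero p q hC, csSup_Icc (by linarith), csInf_Icc (by linarith), angleVal_pi_two,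
    angleVal_zero]
  norm_num

lemma LJ_eq_RJ (hC : nC p q = 0) : LJ p q = RJ p q := by
  funext i
  apply fact14
  exact (Finset.sum_eq_zero_iff.1 hC) i (Finset.mem_univ _)

lemma LJ_ne_RJ (hC : 0 < nC p q) : LJ p q ≠ RJ p q := by
  intro h
  have : nC p q = 0 := by
    apply Finset.sum_eq_zero
    intro i _
    by_contra hne
    exact fact15 _ _ hne (congrFun h i)
  omega

end Frac2

/-! ## The hard functions -/

section Hard

variable {n : ℕ}

/-- number of coordinates in which `q` agrees with the hidden point `P` -/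
def agr (P : Fin n → Fin 3) (q : Fin n → Star) : ℕ :=
  ∑ i, if q i = Star.atom (P i) then 1 else 0

/-- number of coordinates in which `q` is nonzero and differs from `P` -/
def con (P : Fin n → Fin 3) (q : Fin n → Star) : ℕ :=
  ∑ i, if q i ≠ Star.bot ∧ q i ≠ Star.atom (P i) then 1 else 0

/-- the hard function: `con + min (agr, 2 r - agr)` -/
def fZ (P : Fin n → Fin 3) (r : ℕ) (q : Fin n → Star) : ℤ :=
  (con P q : ℤ) + min (agr P q : ℤ) (2 * r - agr P q)

lemma agr_add_con (P : Fin n → Fin 3) (q : Fin n → Star) : agr P q + con P q = W q := by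
  unfold agr con W
  rw [← Finset.sum_add_distrib]
  apply Finset.sum_congr rfl
  intro i _
  have : ∀ (x : Star) (c : Fin 3), ((if x = Star.atom c then 1 else 0) +
      (if x ≠ Star.bot ∧ x ≠ Star.atom c then 1 else 0) : ℕ) = w x := by decide +kernel
  exact this _ _

lemma fZ_of_le (P : Fin n → Fin 3) (r : ℕ) (q : Fin n → Star) (h : agr P q ≤ r) :
    fZ P r q = W q := by
  have := agr_add_con P q
  unfold fZ
  omega

lemma W_le (q : Fin n → Star) : W q ≤ n := by
  unfold W
  calc ∑ i, w (q i) ≤ ∑ _i : Fin n, 1 := Finset.sum_le_sum fun i _ => by unfold w; split <;> omega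
    _ = n := by simp

/-- the basic inequality behind submodularity -/
lemma fZ_ineq (P : Fin n → Fin 3) (r : ℕ) (p q : Fin n → Star) :
    2 * fZ P r (p ⊓ q) + fZ P r (LJ p q) + fZ P r (RJ p q) ≤ 2 * fZ P r p + 2 * fZ P r q := by
  -- union count and the two conflict counts
  let U : ℕ := ∑ i, if p i = Star.atom (P i) ∨ q i = Star.atom (P i) then 1 else 0
  let N1 : ℕ := ∑ i, if p i = Star.atom (P i) ∧ q i ≠ Star.bot ∧ q i ≠ p i then 1 else 0
  let N2 : ℕ := ∑ i, if q i = Star.atom (P i) ∧ p i ≠ Star.bot ∧ p i ≠ q i then 1 else 0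
  have e1 : agr P p + agr P q = agr P (p ⊓ q) + U := by
    unfold agr
    simp only [U, ← Finset.sum_add_distrib]
    apply Finset.sum_congr rfl
    intro i _
    have : ∀ (x y : Star) (c : Fin 3), ((if x = Star.atom c then 1 else 0) +
      (if y = Star.atom c then 1 else 0) : ℕ) = (if x ⊓ y = Star.atom c then 1 else 0) +
      (if x = Star.atom c ∨ y = Star.atom c then 1 else 0) := by decide +kernel
    exact this _ _ _
  have e2 : agr P (LJ p q) + N2 = U := by
    unfold agr
    simp only [U, N2, ← Finset.sum_add_distrib]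
    apply Finset.sum_congr rfl
    intro i _
    have : ∀ (x y : Star) (c : Fin 3), ((if lj x y = Star.atom c then 1 else 0) +
      (if y = Star.atom c ∧ x ≠ Star.bot ∧ x ≠ y then 1 else 0) : ℕ) =
      (if x = Star.atom c ∨ y = Star.atom c then 1 else 0) := by decide +kernel
    exact this _ _ _
  have e3 : agr P (RJ p q) + N1 = U := by
    unfold agr
    simp only [U, N1, ← Finset.sum_add_distrib]
    apply Finset.sum_congr rfl
    intro i _
    have : ∀ (x y : Star) (c : Fin 3), ((if rj x y = Star.atom c then 1 else 0) +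
      (if x = Star.atom c ∧ y ≠ Star.bot ∧ y ≠ x then 1 else 0) : ℕ) =
      (if x = Star.atom c ∨ y = Star.atom c then 1 else 0) := by decide +kernel
    exact this _ _ _
  have e4 : 2 * con P (p ⊓ q) + con P (LJ p q) + con P (RJ p q) + N1 + N2 ≤
      2 * con P p + 2 * con P q := by
    unfold con
    simp only [N1, N2, Finset.mul_sum, ← Finset.sum_add_distrib]
    apply Finset.sum_le_sum
    intro i _
    have : ∀ (x y : Star) (c : Fin 3),
      (2 * (if x ⊓ y ≠ Star.bot ∧ x ⊓ y ≠ Star.atom c then 1 else 0) +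
       (if lj x y ≠ Star.bot ∧ lj x y ≠ Star.atom c then 1 else 0) +
       (if rj x y ≠ Star.bot ∧ rj x y ≠ Star.atom c then 1 else 0) +
       (if x = Star.atom c ∧ y ≠ Star.bot ∧ y ≠ x then 1 else 0) +
       (if y = Star.atom c ∧ x ≠ Star.bot ∧ x ≠ y then 1 else 0) : ℕ) ≤
      2 * (if x ≠ Star.bot ∧ x ≠ Star.atom c then 1 else 0) +
      2 * (if y ≠ Star.bot ∧ y ≠ Star.atom c then 1 else 0) := by decide +kernel
    exact this _ _ _
  have e5 : agr P (p ⊓ q) ≤ agr P p := by
    unfold agr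
    apply Finset.sum_le_sum
    intro i _
    have : ∀ (x y : Star) (c : Fin 3), ((if x ⊓ y = Star.atom c then 1 else 0) : ℕ) ≤
      (if x = Star.atom c then 1 else 0) := by decide +kernel
    exact this _ _ _
  have e6 : agr P (p ⊓ q) ≤ agr P q := by
    unfold agr
    apply Finset.sum_le_sum
    intro i _
    have : ∀ (x y : Star) (c : Fin 3), ((if x ⊓ y = Star.atom c then 1 else 0) : ℕ) ≤
      (if y = Star.atom c then 1 else 0) := by decide +kernel
    exact this _ _ _
  unfold fZ
  omega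

/-- the hard function with values in `ℚ ∪ {+∞}` -/
def hard (P : Fin n → Fin 3) (r : ℕ) (q : Fin n → Star) : WithTop ℚ := some ((fZ P r q : ℤ) : ℚ)

lemma hard_submodular (P : Fin n → Fin 3) (r : ℕ) : IsSubmodular (hard P r) := by
  classical
  intro p q
  have key := fZ_ineq P r p q
  have hfilter : Finset.univ.filter (fun u => u ∈ fracE p q) = ({LJ p q, RJ p q} : Finset _) := by
    ext u
    simp [mem_E_iff]
  rw [show (Finset.univ.filter (fun u => u ∈ fracE p q)) = ({LJ p q, RJ p q} : Finset _) from by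
    convert hfilter]
  rcases Nat.eq_zero_or_pos (nC p q) with hC | hC
  · rw [← LJ_eq_RJ p q hC] at key ⊢
    rw [Finset.pair_eq_singleton, Finset.sum_singleton, weight_zero p q hC]
    simp only [toE, hard]
    rw [← EReal.coe_mul, ← EReal.coe_add, ← EReal.coe_add, EReal.coe_le_coe_iff]
    have : (2 * fZ P r (p ⊓ q) + fZ P r (LJ p q) + fZ P r (LJ p q) : ℝ) ≤
        2 * fZ P r p + 2 * fZ P r q := by exact_mod_cast key
    push_cast
    linarith
  · rw [Finset.sum_pair (LJ_ne_RJ p q hC), weight_LJ p q hC, weight_RJ p q hC]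
    simp only [toE, hard]
    rw [← EReal.coe_mul, ← EReal.coe_mul, ← EReal.coe_add, ← EReal.coe_add, ← EReal.coe_add,
      EReal.coe_le_coe_iff]
    have : (2 * fZ P r (p ⊓ q) + fZ P r (LJ p q) + fZ P r (RJ p q) : ℝ) ≤
        2 * fZ P r p + 2 * fZ P r q := by exact_mod_cast key
    push_cast
    linarith

end Hard

/-! ## Strategies -/

section Strat

variable {X : Type}

/-- the points queried -/
def queries (s : Strategy X) (f : X → WithTop ℚ) : ℕ → List (WithTop ℚ) → List X
  | 0, _ => []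
  | T + 1, h => match s h with
    | Sum.inl x => x :: queries s f T (h ++ [f x])
    | Sum.inr _ => []

lemma queries_length (s : Strategy X) (f : X → WithTop ℚ) :
    ∀ (T : ℕ) (h : List (WithTop ℚ)), (queries s f T h).length ≤ T := by
  intro T
  induction T with
  | zero => intro h; simp [queries]
  | succ T ih =>
    intro h
    unfold queries
    cases s h with
    | inl x => simpa using ih _
    | inr x => simp

lemma run_congr (s : Strategy X) (f g : X → WithTop ℚ) :
    ∀ (T : ℕ) (h : List (WithTop ℚ)), (∀ x ∈ queries s f T h, f x = g x) →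
      run s g T h = run s f T h := by
  intro T
  induction T with
  | zero => intro h _; simp [run]
  | succ T ih =>
    intro h hq
    unfold queries at hq
    unfold run
    cases hs : s h with
    | inl x =>
      rw [hs] at hq
      simp only [List.mem_cons, forall_eq_or_imp] at hq
      simp only
      rw [← hq.1]
      exact ih _ hq.2
    | inr x => rfl

lemma run_mono (s : Strategy X) (f : X → WithTop ℚ) (x : X) :
    ∀ (T T' : ℕ) (h : List (WithTop ℚ)), T ≤ T' → run s f T h = some x → run s f T' h = some x := by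
  intro T
  induction T with
  | zero =>
    intro T' h _ hr
    unfold run at hr
    cases hs : s h with
    | inl y => rw [hs] at hr; simp at hr
    | inr y =>
      rw [hs] at hr
      cases T' with
      | zero => unfold run; rw [hs]; exact hr
      | succ T' => unfold run; rw [hs]; exact hr
  | succ T ih =>
    intro T' h hT hr
    obtain ⟨T'', rfl⟩ : ∃ T'', T' = T'' + 1 := ⟨T' - 1, by omega⟩
    unfold run at hr ⊢
    cases hs : s h with
    | inl y =>
      rw [hs] at hr
      exact ih _ _ (by omega) hr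
    | inr y =>
      rw [hs] at hr
      exact hr

end Strat

/-! ## Counting -/

lemma count_bound {n : ℕ} (x : Fin n → Star) (t : ℕ) :
    2 ^ t * (Finset.univ.filter (fun P : Fin n → Fin 3 => t ≤ agr P x)).card ≤ 4 ^ n := by
  calc 2 ^ t * (Finset.univ.filter (fun P : Fin n → Fin 3 => t ≤ agr P x)).card
      = ∑ P ∈ Finset.univ.filter (fun P : Fin n → Fin 3 => t ≤ agr P x), 2 ^ t := by
        rw [Finset.sum_const, smul_eq_mul, mul_comm]
    _ ≤ ∑ P ∈ Finset.univ.filter (fun P : Fin n → Fin 3 => t ≤ agr P x), 2 ^ (agr P x) := by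
        apply Finset.sum_le_sum
        intro P hP
        exact Nat.pow_le_pow_right (by norm_num) (Finset.mem_filter.1 hP).2
    _ ≤ ∑ P : Fin n → Fin 3, 2 ^ (agr P x) :=
        Finset.sum_le_sum_of_subset (Finset.filter_subset _ _)
    _ = ∑ P : Fin n → Fin 3, ∏ i, 2 ^ (if x i = Star.atom (P i) then 1 else 0) := by
        apply Finset.sum_congr rfl
        intro P _
        unfold agr
        rw [Finset.prod_pow_eq_pow_sum]
    _ = ∏ i : Fin n, ∑ c : Fin 3, 2 ^ (if x i = Star.atom c then 1 else 0) := by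
        rw [Finset.prod_univ_sum]
        simp [Fintype.piFinset_univ]
    _ ≤ ∏ i : Fin n, 4 := by
        apply Finset.prod_le_prod'
        intro i _
        have : ∀ y : Star, ∑ c : Fin 3, 2 ^ (if y = Star.atom c then 1 else 0) ≤ 4 := by
          decide +kernel
        exact this _
    _ = 4 ^ n := by simp

/-- If every hidden point is detected by one of the points in the list, the list is long. -/
lemma cover_bound {n : ℕ} (l : List (Fin n → Star)) (t : ℕ)
    (hcov : ∀ P : Fin n → Fin 3, ∃ x ∈ l, t ≤ agr P x) : 2 ^ t * 3 ^ n ≤ l.length * 4 ^ n := by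
  have h1 : (Finset.univ : Finset (Fin n → Fin 3)) ⊆
      l.toFinset.biUnion (fun x => Finset.univ.filter (fun P : Fin n → Fin 3 => t ≤ agr P x)) := by
    intro P _
    obtain ⟨x, hx, hP⟩ := hcov P
    simp only [Finset.mem_biUnion, List.mem_toFinset, Finset.mem_filter, Finset.mem_univ, true_and]
    exact ⟨x, hx, hP⟩
  have h2 : 3 ^ n = (Finset.univ : Finset (Fin n → Fin 3)).card := by simp
  calc 2 ^ t * 3 ^ n = 2 ^ t * (Finset.univ : Finset (Fin n → Fin 3)).card := by rw [h2]
    _ ≤ 2 ^ t * ∑ x ∈ l.toFinset,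
        (Finset.univ.filter (fun P : Fin n → Fin 3 => t ≤ agr P x)).card :=
      Nat.mul_le_mul_left _ ((Finset.card_le_card h1).trans Finset.card_biUnion_le)
    _ = ∑ x ∈ l.toFinset, 2 ^ t *
        (Finset.univ.filter (fun P : Fin n → Fin 3 => t ≤ agr P x)).card := Finset.mul_sum _ _ _
    _ ≤ ∑ x ∈ l.toFinset, 4 ^ n := Finset.sum_le_sum fun x _ => count_bound x t
    _ = l.toFinset.card * 4 ^ n := by rw [Finset.sum_const, smul_eq_mul]
    _ ≤ l.length * 4 ^ n := Nat.mul_le_mul_right _ (List.toFinset_card_le l)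

/-- growth: a polynomial does not dominate `(9/8)^r` -/
lemma growth (c d : ℕ) : ∃ r : ℕ, (c * (4 * r + 9) ^ d) * 4 ^ (2 * r + 1) <
    2 ^ (r + 1) * 3 ^ (2 * r + 1) := by
  have h1 : Filter.Tendsto (fun r : ℕ => (r : ℝ) ^ d * (8 / 9 : ℝ) ^ r) Filter.atTop (nhds 0) :=
    tendsto_pow_const_mul_const_pow_of_abs_lt_one d (by rw [abs_of_pos] <;> norm_num)
  have h2 : Filter.Tendsto (fun r : ℕ => ((c : ℝ) * 13 ^ d) * ((r : ℝ) ^ d * (8 / 9 : ℝ) ^ r))
      Filter.atTop (nhds (((c : ℝ) * 13 ^ d) * 0)) := h1.const_mul _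
  rw [mul_zero] at h2
  have h3 := (h2.eventually (gt_mem_nhds (show (0 : ℝ) < 1 by norm_num))).and
    (Filter.eventually_ge_atTop 1)
  obtain ⟨r, hr1, hr2⟩ := h3.exists
  refine ⟨r, ?_⟩
  have hr2' : (1 : ℝ) ≤ r := by exact_mod_cast hr2
  have h4 : ((4 * r + 9 : ℕ) : ℝ) ^ d ≤ 13 ^ d * (r : ℝ) ^ d := by
    rw [← mul_pow]
    apply pow_le_pow_left₀ (by positivity)
    push_cast
    linarith
  have h5 : ((c : ℝ) * ((4 * r + 9 : ℕ) : ℝ) ^ d) * (8 / 9 : ℝ) ^ r < 1 := by
    calc ((c : ℝ) * ((4 * r + 9 : ℕ) : ℝ) ^ d) * (8 / 9 : ℝ) ^ r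
        ≤ ((c : ℝ) * (13 ^ d * (r : ℝ) ^ d)) * (8 / 9 : ℝ) ^ r := by
          gcongr
      _ = ((c : ℝ) * 13 ^ d) * ((r : ℝ) ^ d * (8 / 9 : ℝ) ^ r) := by ring
      _ < 1 := hr1
  have h6 : ((c : ℝ) * ((4 * r + 9 : ℕ) : ℝ) ^ d) * 8 ^ r < 9 ^ r := by
    rw [div_pow] at h5
    have h9 : (0 : ℝ) < 9 ^ r := by positivity
    have : ((c : ℝ) * ((4 * r + 9 : ℕ) : ℝ) ^ d) * 8 ^ r / 9 ^ r < 1 := by
      rw [mul_div_assoc]; exact h5
    rwa [div_lt_one h9] at this
  have h7 : (c * (4 * r + 9) ^ d) * 8 ^ r < 9 ^ r := by exact_mod_cast h6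
  have e1 : (4 : ℕ) ^ (2 * r + 1) = 4 * (2 ^ r * 8 ^ r) := by
    rw [pow_succ, pow_mul, ← mul_pow]; norm_num; ring
  have e2 : (2 : ℕ) ^ (r + 1) * 3 ^ (2 * r + 1) = 6 * (2 ^ r * 9 ^ r) := by
    rw [pow_succ, pow_succ, pow_mul]; norm_num; ring
  rw [e1, e2]
  have h8 : 0 < (2 : ℕ) ^ r := by positivity
  calc c * (4 * r + 9) ^ d * (4 * (2 ^ r * 8 ^ r)) = 4 * 2 ^ r * ((c * (4 * r + 9) ^ d) * 8 ^ r) := by
        ring
    _ < 4 * 2 ^ r * 9 ^ r := by
        apply Nat.mul_lt_mul_of_pos_left h7 (by positivity)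
    _ ≤ 6 * (2 ^ r * 9 ^ r) := by
        rw [mul_assoc]
        exact Nat.mul_le_mul_right _ (by norm_num)

/-! ## The main theorem -/

lemma bitLength_hard {n : ℕ} (P : Fin n → Fin 3) (r : ℕ) (q : Fin n → Star) :
    bitLength (hard P r q) ≤ n + 2 := by
  have h1 := agr_add_con P q
  have h2 := W_le q
  have hb : (fZ P r q).natAbs ≤ n := by
    unfold fZ
    omega
  unfold bitLength hard
  simp only
  have h3 : Nat.size ((fZ P r q : ℤ) : ℚ).num.natAbs ≤ n + 1 := by
    rw [Rat.num_intCast, Nat.size_le]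
    calc (fZ P r q).natAbs ≤ n := hb
      _ < n + 1 := by omega
      _ < 2 ^ (n + 1) := Nat.lt_two_pow_self
  have h4 : Nat.size ((fZ P r q : ℤ) : ℚ).den = 1 := by
    rw [Rat.den_intCast]; simp
  omega

lemma maxBits_hard {n : ℕ} (P : Fin n → Fin 3) (r : ℕ) :
    maxBits (hard P r) ≤ n + 2 := by
  unfold maxBits
  apply Finset.sup_le
  intro q _
  exact bitLength_hard P r q

/-- Explicit exponential lower bound on powers of the star: a strategy on `Star^n`, `n = 2r+1`,
that makes at most `T` oracle calls and finds a minimizer of every function `hard P k` (these are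
submodular with integer values in `[-n, n]`) has `T * 4^n ≥ 2^(r+1) * 3^n`, that is
`T ≥ (3/2) * (9/8)^r`. -/
theorem star_lower_bound (n r T : ℕ) (hn : n = 2 * r + 1) (s : Strategy (Fin n → Star))
    (hs : ∀ (P : Fin n → Fin 3) (k : ℕ), k ≤ n →
      ∃ x, run s (hard P k) T [] = some x ∧ ∀ y, hard P k x ≤ hard P k y) :
    2 ^ (r + 1) * 3 ^ n ≤ T * 4 ^ n := by
  let P₀ : Fin n → Fin 3 := fun _ => 0
  -- the plain function: number of nonzero coordinates
  obtain ⟨x₀, hx₀, hmin₀⟩ := hs P₀ n le_rfl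
  have hf₀ : ∀ q, hard P₀ n q = some (((W q : ℕ) : ℤ) : ℚ) := by
    intro q
    unfold hard
    rw [fZ_of_le]
    have h1 := agr_add_con P₀ q
    have h2 := W_le q
    omega
  have hx₀0 : W x₀ = 0 := by
    have h := hmin₀ (fun _ => Star.bot)
    rw [hf₀, hf₀] at h
    have hW : W (fun _ : Fin n => Star.bot) = 0 := by simp [W, w]
    rw [hW] at h
    have h' : (((W x₀ : ℕ) : ℤ) : ℚ) ≤ (((0 : ℕ) : ℤ) : ℚ) := WithTop.coe_le_coe.1 h
    have h'' : W x₀ ≤ 0 := by exact_mod_cast h'
    omega
  have hcov : ∀ P : Fin n → Fin 3, ∃ x ∈ queries s (hard P₀ n) T [], r + 1 ≤ agr P x := by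
    intro P
    by_contra hcon
    push Not at hcon
    have hagree : ∀ x ∈ queries s (hard P₀ n) T [], hard P₀ n x = hard P r x := by
      intro x hx
      rw [hf₀]
      unfold hard
      rw [fZ_of_le P r x (by have := hcon x hx; omega)]
    have hrun := run_congr s _ _ T [] hagree
    obtain ⟨x, hx, hmin⟩ := hs P r (by omega)
    rw [hrun, hx₀] at hx
    have hxx : x₀ = x := Option.some.inj hx
    subst hxx
    have h := hmin (fun i => Star.atom (P i))
    unfold hard at h
    have h' : ((fZ P r x₀ : ℤ) : ℚ) ≤ ((fZ P r (fun i => Star.atom (P i)) : ℤ) : ℚ) :=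
      WithTop.coe_le_coe.1 h
    have h'' : fZ P r x₀ ≤ fZ P r (fun i => Star.atom (P i)) := by exact_mod_cast h'
    have a1 : agr P (fun i => Star.atom (P i)) = n := by simp [agr]
    have a2 : con P (fun i => Star.atom (P i)) = 0 := by simp [con]
    have a3 := agr_add_con P x₀
    unfold fZ at h''
    omega
  have h1 := cover_bound _ _ hcov
  exact h1.trans (Nat.mul_le_mul_right _ (queries_length _ _ _ _))

/-- **Negative answer.**  There is no polynomial bound `c * (n + N + B + 1)^d` such that for every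
product `L = L_1 × ⋯ × L_n` of finite modular semilattices there is a deterministic query strategy
(which may depend in an arbitrary, even non-computable, way on the explicitly given
`L_1, …, L_n`) that finds a minimizer of every submodular `f : L → ℚ ∪ {+∞}` using at most
`c * (n + N + B + 1)^d` value-oracle calls, where `N = max_i |L_i|` and `B` is the maximum bit
length of the values of `f`; and this stays true if the strategy only has to be correct for
functions `f` all of whose values are finite. -/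
theorem result : ¬ ∃ c d : ℕ, ∀ (n : ℕ) (L : Fin n → Type) [∀ i, SemilatticeInf (L i)]
    [∀ i, OrderBot (L i)] [∀ i, Fintype (L i)], (∀ i, IsModularSemilattice (L i)) →
    ∃ s : Strategy (∀ i, L i), ∀ f : (∀ i, L i) → WithTop ℚ, (∀ p, f p ≠ ⊤) → IsSubmodular f →
      ∃ x, run s f (c * (n + maxCard L + maxBits f + 1) ^ d) [] = some x ∧ ∀ y, f x ≤ f y := by
  rintro ⟨c, d, H⟩
  obtain ⟨r, hr⟩ := growth c d
  obtain ⟨s, hs⟩ := H (2 * r + 1) (fun _ => Star) (fun _ => star_modular)
  have key := star_lower_bound (2 * r + 1) r (c * (4 * r + 9) ^ d) rfl s ?_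
  · omega
  · intro P k hk
    obtain ⟨x, hx, hmin⟩ := hs (hard P k) (by intro p h; unfold hard at h; exact Option.some_ne_none _ h)
      (hard_submodular P k)
    refine ⟨x, run_mono s _ x _ _ _ ?_ hx, hmin⟩
    apply Nat.mul_le_mul_left
    apply Nat.pow_le_pow_left
    have h1 := maxBits_hard P k
    have h2 : maxCard (fun _ : Fin (2 * r + 1) => Star) ≤ 4 := by
      unfold maxCard
      apply Finset.sup_le
      intro i _
      change Fintype.card Star ≤ 4
      decide +kernel
    omega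

end Pool.Agent.Results.MP_88d2b4_lc.OracleLowerBound
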